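import Pool.Agent.X216.EPlastic2

/-!
# No dense sigma-compact subgroup of the real line is plastic

Every dense `σ`-compact subgroup `H` of `ℝ` has a non-expansive bijection onto itself which is
not an isometry.  As `ℝ` is a separable strictly convex metric abelian group, both questions of
the problem have a negative answer.
-/

open MeasureTheory Pool.Agent.X216.EPlastic

namespace Pool.Agent.Results.MP_fc2771_gt.SigmaCompactSubgroupsNotPlastic

/-- A metric space is plastic if every non-expansive bijection of it is an isometry. -/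
def Plastic (X : Type) [MetricSpace X] : Prop :=
  ∀ f : X → X, Function.Bijective f → (∀ x y, dist (f x) (f y) ≤ dist x y) → Isometry f

/-- Strict convexity of a metric space, as in the problem. -/
def StrictlyConvex (X : Type) [MetricSpace X] : Prop :=
  ∀ (x y : X) (a b : ℝ), 0 < a → 0 < b → a + b = dist x y → ∃! z : X, dist x z = a ∧ dist z y = b

/-- **Main theorem.** (Q2) Every dense sigma-compact subgroup of the line has a non-expansive
bijection onto itself which is not an isometry.  (Q1) It is not true that every separable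
strictly convex metric abelian group contains a subgroup that is dense, sigma-compact
and plastic. -/
theorem result :
    (∀ H : AddSubgroup ℝ, Dense (H : Set ℝ) → IsSigmaCompact (H : Set ℝ) →
      ∃ f : H → H, Function.Bijective f ∧ (∀ x y, dist (f x) (f y) ≤ dist x y) ∧ ¬ Isometry f) ∧
    ¬ ∀ (G : Type) [AddCommGroup G] [MetricSpace G],
      (∀ x y z : G, dist (x + z) (y + z) = dist x y) → StrictlyConvex G →
      TopologicalSpace.SeparableSpace G →
      ∃ H : AddSubgroup G, Dense (H : Set G) ∧ IsSigmaCompact (H : Set G) ∧ Plastic H := by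
  have h1 : ∀ H : AddSubgroup ℝ, Dense (H : Set ℝ) → IsSigmaCompact (H : Set ℝ) →
      ∃ f : H → H, Function.Bijective f ∧ (∀ x y, dist (f x) (f y) ≤ dist x y) ∧
        ¬ Isometry f := by
    intro H hd hH
    have hA : AnalyticSet (H : Set ℝ) := by
      obtain ⟨K, hK, hKH⟩ := hH
      rw [← hKH]
      exact (MeasurableSet.iUnion fun n => (hK n).isClosed.measurableSet).analyticSet
    have h := not_plastic_analytic H hd hA
    unfold Pool.Agent.X216.EPlastic.Plastic at h
    push Not at h
    exact h
  refine ⟨h1, fun hall => ?_⟩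
  have hsc : StrictlyConvex ℝ := by
    intro x y a b ha hb hab
    rw [Real.dist_eq] at hab
    rcases le_total x y with h | h
    · rw [abs_sub_comm, abs_of_nonneg (sub_nonneg.2 h)] at hab
      refine ⟨x + a, ⟨?_, ?_⟩, ?_⟩
      · rw [Real.dist_eq, abs_sub_comm, abs_of_nonneg (by linarith)]; ring
      · rw [Real.dist_eq, abs_sub_comm, abs_of_nonneg (by linarith)]; linarith
      · rintro z ⟨h1, h2⟩
        rw [Real.dist_eq] at h1 h2
        rcases abs_cases (x - z) with ⟨h3, h4⟩ | ⟨h3, h4⟩ <;>
        rcases abs_cases (z - y) with ⟨h5, h6⟩ | ⟨h5, h6⟩ <;> linarith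
    · rw [abs_of_nonneg (sub_nonneg.2 h)] at hab
      refine ⟨x - a, ⟨?_, ?_⟩, ?_⟩
      · rw [Real.dist_eq, abs_of_nonneg (by linarith)]; ring
      · rw [Real.dist_eq, abs_of_nonneg (by linarith)]; linarith
      · rintro z ⟨h1, h2⟩
        rw [Real.dist_eq] at h1 h2
        rcases abs_cases (x - z) with ⟨h3, h4⟩ | ⟨h3, h4⟩ <;>
        rcases abs_cases (z - y) with ⟨h5, h6⟩ | ⟨h5, h6⟩ <;> linarith
  obtain ⟨H, hd, hH, hP⟩ := hall ℝ (fun x y z => dist_add_right x y z) hsc inferInstance
  obtain ⟨f, hb, hf, hi⟩ := h1 H hd hH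
  exact hi (hP f hb hf)

end Pool.Agent.Results.MP_fc2771_gt.SigmaCompactSubgroupsNotPlastic
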